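import Pool.Agent.H.MP_7783b9_co.T.Cover

/-!
# Expanding 3-uniform hypergraphs of bounded degree
-/

set_option autoImplicit false

open Finset

namespace Pool.MP7783b9

/-- for every `K` there are hypergraphs of bounded degree on `b` vertices in which any three
disjoint sets with at least `b / K` vertices have an edge meeting all three -/
theorem expander (K : ℕ) (hK : 0 < K) : ∃ L : ℕ, ∀ b : ℕ, 0 < b →
    ∃ E : Finset (Finset (Fin b)), (∀ e ∈ E, e.card = 3) ∧
      (∀ x, (E.filter fun e => x ∈ e).card ≤ L) ∧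
      ∀ A B C : Finset (Fin b), Disjoint A B → Disjoint A C → Disjoint B C →
        b ≤ K * A.card → b ≤ K * B.card → b ≤ K * C.card →
        ∃ x ∈ A, ∃ y ∈ B, ∃ z ∈ C, ({x, y, z} : Finset (Fin b)) ∈ E := by
  classical
  obtain ⟨D, hD0, hD⟩ := cover_boxes (2 * K) (by omega)
  refine ⟨12 * D * K, fun b hb => ?_⟩
  obtain ⟨T, hT, hT2⟩ := hD b hb
  obtain ⟨dg, hdg⟩ : ∃ dg : Fin b → ℕ, ∀ v, dg v =
      (T.filter fun t => v = t.1 ∨ v = t.2.1 ∨ v = t.2.2).card := ⟨_, fun _ => rfl⟩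
  obtain ⟨Z, hZ⟩ : ∃ Z : Finset (Fin b), ∀ v, v ∈ Z ↔ 12 * D * K < dg v :=
    ⟨Finset.univ.filter fun v => 12 * D * K < dg v, fun v => by simp⟩
  -- few vertices of large degree
  have hsum : ∑ v, dg v ≤ 3 * T.card := by
    have h1 : ∑ v, dg v = ∑ t ∈ T, (Finset.univ.filter fun v =>
        v = t.1 ∨ v = t.2.1 ∨ v = t.2.2).card := by
      simp only [hdg]
      have := Finset.sum_card_bipartiteAbove_eq_sum_card_bipartiteBelow
        (s := (Finset.univ : Finset (Fin b))) (t := T)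
        (fun v t => v = t.1 ∨ v = t.2.1 ∨ v = t.2.2)
      exact this
    rw [h1, mul_comm]
    refine Finset.sum_le_card_nsmul _ _ _ fun t _ => ?_
    have h2 : (Finset.univ.filter fun v => v = t.1 ∨ v = t.2.1 ∨ v = t.2.2) ⊆
        {t.1, t.2.1, t.2.2} := by
      intro v hv
      simpa using hv
    exact (Finset.card_le_card h2).trans Finset.card_le_three
  have hZc : 4 * K * Z.card ≤ b := by
    have h1 : Z.card * (12 * D * K) ≤ ∑ v ∈ Z, dg v := by
      rw [← smul_eq_mul]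
      exact Finset.card_nsmul_le_sum _ _ _ fun v hv => ((hZ v).1 hv).le
    have h2 : ∑ v ∈ Z, dg v ≤ ∑ v, dg v :=
      Finset.sum_le_sum_of_subset (Finset.subset_univ _)
    have h3 : Z.card * (12 * D * K) ≤ 3 * (D * b) := (h1.trans h2).trans
      (hsum.trans (Nat.mul_le_mul_left 3 hT))
    have h4 : (3 * D) * (4 * K * Z.card) ≤ (3 * D) * b := by
      calc (3 * D) * (4 * K * Z.card) = Z.card * (12 * D * K) := by ring
        _ ≤ 3 * (D * b) := h3
        _ = (3 * D) * b := by ring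
    exact Nat.le_of_mul_le_mul_left h4 (by omega)
  refine ⟨(T.filter fun t => (t.1 ∉ Z ∧ t.2.1 ∉ Z ∧ t.2.2 ∉ Z) ∧ t.1 ≠ t.2.1 ∧ t.1 ≠ t.2.2 ∧
    t.2.1 ≠ t.2.2).image fun t => {t.1, t.2.1, t.2.2}, ?_, ?_, ?_⟩
  · intro e he
    obtain ⟨t, ht, rfl⟩ := Finset.mem_image.1 he
    obtain ⟨-, -, h1, h2, h3⟩ := Finset.mem_filter.1 ht
    exact Finset.card_eq_three.2 ⟨t.1, t.2.1, t.2.2, h1, h2, h3, rfl⟩
  · intro x
    by_cases hx : x ∈ Z
    · refine le_of_eq_of_le ?_ (Nat.zero_le _)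
      rw [Finset.card_eq_zero, Finset.filter_eq_empty_iff]
      intro e he hxe
      obtain ⟨t, ht, rfl⟩ := Finset.mem_image.1 he
      obtain ⟨-, ⟨h1, h2, h3⟩, -⟩ := Finset.mem_filter.1 ht
      simp only [Finset.mem_insert, Finset.mem_singleton] at hxe
      rcases hxe with rfl | rfl | rfl
      · exact h1 hx
      · exact h2 hx
      · exact h3 hx
    · have h1 : dg x ≤ 12 * D * K := by
        by_contra hcon
        exact hx ((hZ x).2 (not_le.1 hcon))
      refine le_trans ?_ h1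
      rw [hdg]
      refine le_trans (Finset.card_le_card ?_) (Finset.card_image_le (f := fun t :
        Fin b × Fin b × Fin b => ({t.1, t.2.1, t.2.2} : Finset (Fin b))))
      intro e he
      obtain ⟨he1, he2⟩ := Finset.mem_filter.1 he
      obtain ⟨t, ht, rfl⟩ := Finset.mem_image.1 he1
      refine Finset.mem_image.2 ⟨t, Finset.mem_filter.2 ⟨(Finset.mem_filter.1 ht).1, ?_⟩, rfl⟩
      simpa using he2
  · intro A B C hAB hAC hBC hA hB hC
    have key : ∀ S : Finset (Fin b), b ≤ K * S.card → b ≤ 2 * K * (S \ Z).card := by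
      intro S hS
      have h1 := Finset.le_card_sdiff Z S
      have h2 : K * S.card ≤ K * (S \ Z).card + K * Z.card := by
        rw [← mul_add]
        exact Nat.mul_le_mul_left K (by omega)
      have h3 : 4 * K * Z.card = 4 * (K * Z.card) := by ring
      have h4 : 2 * K * (S \ Z).card = 2 * (K * (S \ Z).card) := by ring
      rw [h3] at hZc
      rw [h4]
      omega
    obtain ⟨t, ht, h1, h2, h3⟩ := hT2 (A \ Z) (B \ Z) (C \ Z) (key A hA) (key B hB) (key C hC)
    rw [Finset.mem_sdiff] at h1 h2 h3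
    refine ⟨t.1, h1.1, t.2.1, h2.1, t.2.2, h3.1, Finset.mem_image.2 ⟨t, Finset.mem_filter.2
      ⟨ht, ⟨h1.2, h2.2, h3.2⟩, ?_, ?_, ?_⟩, rfl⟩⟩
    · exact fun h => Finset.disjoint_left.1 hAB h1.1 (h ▸ h2.1)
    · exact fun h => Finset.disjoint_left.1 hAC h1.1 (h ▸ h3.1)
    · exact fun h => Finset.disjoint_left.1 hBC h2.1 (h ▸ h3.1)

end Pool.MP7783b9
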