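import Pool.Agent.H.MP_7783b9_co.T.NotArr
import Pool.Agent.H.MP_7783b9_co.T.Expa

/-!
# Connected expanding hypergraphs with large strongly independent sets
-/

set_option autoImplicit false

open Finset

namespace Pool.MP7783b9

/-- `E` consists of a chain, a copy of `X` on the first `b` vertices, and pendant edges -/
def Build_E {n b : ℕ} (h : b ≤ n) (hn : 0 < n) (q : ℕ) (X : Finset (Finset (Fin b))) :
    Finset (Finset (Fin n)) :=
  ((Finset.range (b - 2)).image fun i => {⟨i % n, Nat.mod_lt _ hn⟩, ⟨(i + 1) % n,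
    Nat.mod_lt _ hn⟩, ⟨(i + 2) % n, Nat.mod_lt _ hn⟩}) ∪
  (X.image fun e => e.map (Fin.castLEEmb h)) ∪
  ((Finset.univ.filter fun v : Fin n => b ≤ (v : ℕ)).image fun v => {v,
    ⟨((v - b) / q) % n, Nat.mod_lt _ hn⟩, ⟨((v - b) / q + 1) % n, Nat.mod_lt _ hn⟩})

theorem Build_mem {n b : ℕ} (h : b ≤ n) (hn : 0 < n) (q : ℕ) (X : Finset (Finset (Fin b)))
    (hqb : ∀ v : ℕ, v < n → (v - b) / q + 1 < b) (e : Finset (Fin n)) :
    e ∈ Build_E h hn q X ↔
      (∃ x y z : Fin n, (x : ℕ) + 2 < b ∧ (y : ℕ) = x + 1 ∧ (z : ℕ) = x + 2 ∧ e = {x, y, z}) ∨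
      (∃ f ∈ X, e = f.map (Fin.castLEEmb h)) ∨
      (∃ v x y : Fin n, b ≤ (v : ℕ) ∧ (x : ℕ) = (v - b) / q ∧ (y : ℕ) = x + 1 ∧
        (y : ℕ) < b ∧ e = {v, x, y}) := by
  unfold Build_E
  rw [Finset.mem_union, Finset.mem_union, or_assoc]
  refine or_congr ?_ (or_congr ?_ ?_)
  · rw [Finset.mem_image]
    constructor
    · rintro ⟨i, hi, rfl⟩
      rw [Finset.mem_range] at hi
      refine ⟨_, _, _, ?_, ?_, ?_, rfl⟩
      · show i % n + 2 < b
        rw [Nat.mod_eq_of_lt (by omega)]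
        omega
      · show (i + 1) % n = i % n + 1
        rw [Nat.mod_eq_of_lt (by omega), Nat.mod_eq_of_lt (by omega)]
      · show (i + 2) % n = i % n + 2
        rw [Nat.mod_eq_of_lt (by omega), Nat.mod_eq_of_lt (by omega)]
    · rintro ⟨x, y, z, hx, hy, hz, rfl⟩
      refine ⟨x, Finset.mem_range.2 (by omega), ?_⟩
      have e1 : (⟨(x : ℕ) % n, Nat.mod_lt _ hn⟩ : Fin n) = x :=
        Fin.ext (Nat.mod_eq_of_lt x.2)
      have e2 : (⟨((x : ℕ) + 1) % n, Nat.mod_lt _ hn⟩ : Fin n) = y := by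
        refine Fin.ext ?_
        show ((x : ℕ) + 1) % n = y
        rw [← hy]
        exact Nat.mod_eq_of_lt y.2
      have e3 : (⟨((x : ℕ) + 2) % n, Nat.mod_lt _ hn⟩ : Fin n) = z := by
        refine Fin.ext ?_
        show ((x : ℕ) + 2) % n = z
        rw [← hz]
        exact Nat.mod_eq_of_lt z.2
      rw [e1, e2, e3]
  · rw [Finset.mem_image]
    constructor
    · rintro ⟨f, hf, rfl⟩
      exact ⟨f, hf, rfl⟩
    · rintro ⟨f, hf, rfl⟩
      exact ⟨f, hf, rfl⟩
  · rw [Finset.mem_image]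
    constructor
    · rintro ⟨v, hv, rfl⟩
      have hv2 := (Finset.mem_filter.1 hv).2
      have h1 := hqb v v.2
      refine ⟨v, _, _, hv2, ?_, ?_, ?_, rfl⟩
      · show (((v : ℕ) - b) / q) % n = _
        rw [Nat.mod_eq_of_lt (by omega)]
      · show (((v : ℕ) - b) / q + 1) % n = (((v : ℕ) - b) / q) % n + 1
        rw [Nat.mod_eq_of_lt (by omega), Nat.mod_eq_of_lt (by omega)]
      · show (((v : ℕ) - b) / q + 1) % n < b
        rw [Nat.mod_eq_of_lt (by omega)]
        exact h1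
    · rintro ⟨v, x, y, hv, hx, hy, hyb, rfl⟩
      refine ⟨v, Finset.mem_filter.2 ⟨Finset.mem_univ _, hv⟩, ?_⟩
      have e1 : (⟨(((v : ℕ) - b) / q) % n, Nat.mod_lt _ hn⟩ : Fin n) = x := by
        refine Fin.ext ?_
        show (((v : ℕ) - b) / q) % n = x
        rw [← hx]
        exact Nat.mod_eq_of_lt x.2
      have e2 : (⟨(((v : ℕ) - b) / q + 1) % n, Nat.mod_lt _ hn⟩ : Fin n) = y := by
        refine Fin.ext ?_
        show (((v : ℕ) - b) / q + 1) % n = y
        rw [← hx, ← hy]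
        exact Nat.mod_eq_of_lt y.2
      rw [e1, e2]

section

variable {n b : ℕ} (h : b ≤ n) (hn : 0 < n) (q : ℕ) (X : Finset (Finset (Fin b)))
  (hqb : ∀ v : ℕ, v < n → (v - b) / q + 1 < b)

include hqb in
theorem Build_card (hX : ∀ e ∈ X, e.card = 3) : ∀ e ∈ Build_E h hn q X, e.card = 3 := by
  intro e he
  rcases (Build_mem h hn q X hqb e).1 he with ⟨x, y, z, hx, hy, hz, rfl⟩ | ⟨f, hf, rfl⟩ |
    ⟨v, x, y, hv, hx, hy, hyb, rfl⟩
  · refine Finset.card_eq_three.2 ⟨x, y, z, ?_, ?_, ?_, rfl⟩ <;>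
      · intro h1
        have := congrArg Fin.val h1
        omega
  · rw [Finset.card_map]
    exact hX f hf
  · refine Finset.card_eq_three.2 ⟨v, x, y, ?_, ?_, ?_, rfl⟩ <;>
      · intro h1
        have := congrArg Fin.val h1
        omega

include hqb in
theorem Build_indep : ∀ e ∈ Build_E h hn q X,
    (e ∩ (Finset.univ.filter fun v : Fin n => b ≤ (v : ℕ))).card ≤ 1 := by
  intro e he
  rw [Finset.card_le_one]
  intro p hp r hr
  rw [Finset.mem_inter, Finset.mem_filter] at hp hr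
  obtain ⟨hp1, -, hp2⟩ := hp
  obtain ⟨hr1, -, hr2⟩ := hr
  rcases (Build_mem h hn q X hqb e).1 he with ⟨x, y, z, hx, hy, hz, rfl⟩ | ⟨f, hf, rfl⟩ |
    ⟨v, x, y, hv, hx, hy, hyb, rfl⟩
  · exfalso
    simp only [Finset.mem_insert, Finset.mem_singleton] at hp1
    rcases hp1 with rfl | rfl | rfl <;> omega
  · exfalso
    obtain ⟨w, -, rfl⟩ := Finset.mem_map.1 hp1
    have := w.2
    have h1 : ((Fin.castLEEmb h w : Fin n) : ℕ) = w := rfl
    omega
  · simp only [Finset.mem_insert, Finset.mem_singleton] at hp1 hr1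
    have hp3 : p = v := by
      rcases hp1 with rfl | rfl | rfl
      · rfl
      · omega
      · omega
    have hr3 : r = v := by
      rcases hr1 with rfl | rfl | rfl
      · rfl
      · omega
      · omega
    rw [hp3, hr3]

theorem Build_exp (K : ℕ) (hX : ∀ A B C : Finset (Fin b), Disjoint A B → Disjoint A C →
      Disjoint B C → b ≤ K * A.card → b ≤ K * B.card → b ≤ K * C.card →
      ∃ x ∈ A, ∃ y ∈ B, ∃ z ∈ C, ({x, y, z} : Finset (Fin b)) ∈ X) :
    Exp (Build_E h hn q X) (Finset.univ.map (Fin.castLEEmb h)) K := by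
  intro A B C hA hB hC hAB hAC hBC cA cB cC
  rw [Finset.card_map, Finset.card_univ, Fintype.card_fin] at cA cB cC
  obtain ⟨A', -, rfl⟩ := Finset.subset_map_iff.1 hA
  obtain ⟨B', -, rfl⟩ := Finset.subset_map_iff.1 hB
  obtain ⟨C', -, rfl⟩ := Finset.subset_map_iff.1 hC
  rw [Finset.disjoint_map] at hAB hAC hBC
  rw [Finset.card_map] at cA cB cC
  obtain ⟨x, hx, y, hy, z, hz, he⟩ := hX A' B' C' hAB hAC hBC cA cB cC
  refine ⟨_, Finset.mem_map_of_mem _ hx, _, Finset.mem_map_of_mem _ hy, _,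
    Finset.mem_map_of_mem _ hz, ?_⟩
  unfold Build_E
  rw [Finset.mem_union, Finset.mem_union]
  refine Or.inl (Or.inr (Finset.mem_image.2 ⟨_, he, ?_⟩))
  rw [Finset.map_insert, Finset.map_insert, Finset.map_singleton]

end

end Pool.MP7783b9
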