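import Mathlib

/-!
# A small set of points hitting all large boxes
-/

set_option autoImplicit false

open Finset

namespace Pool.MP7783b9

theorem Cover_point {X : Type*} [Fintype X] [DecidableEq X] [Nonempty X] (K : ℕ)
    (F : Finset (Finset X)) (hF : ∀ S ∈ F, Fintype.card X ≤ K * S.card) :
    ∃ x : X, F.card ≤ K * (F.filter fun S => x ∈ S).card := by
  by_contra hcon
  push Not at hcon
  have h1 : ∑ x : X, K * (F.filter fun S => x ∈ S).card < ∑ _x : X, F.card :=
    Finset.sum_lt_sum_of_nonempty Finset.univ_nonempty fun x _ => hcon x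
  have h2 : ∑ x : X, (F.filter fun S => x ∈ S).card = ∑ S ∈ F, S.card := by
    have := Finset.sum_card_bipartiteAbove_eq_sum_card_bipartiteBelow
      (s := (Finset.univ : Finset X)) (t := F) (fun x S => x ∈ S)
    unfold Finset.bipartiteAbove Finset.bipartiteBelow at this
    rw [this]
    refine Finset.sum_congr rfl fun S _ => ?_
    congr 1
    ext x
    simp
  rw [← Finset.mul_sum, h2, Finset.mul_sum, Finset.sum_const, Finset.card_univ, smul_eq_mul] at h1
  have h3 : ∑ _S ∈ F, Fintype.card X ≤ ∑ S ∈ F, K * S.card := Finset.sum_le_sum hF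
  rw [Finset.sum_const, smul_eq_mul] at h3
  rw [mul_comm] at h1
  omega

/-- the greedy cover -/
theorem cover {X : Type*} [Fintype X] [DecidableEq X] [Nonempty X] (K t : ℕ) :
    ∀ F : Finset (Finset X), (∀ S ∈ F, Fintype.card X ≤ K * S.card) →
      F.card * (K - 1) ^ t < K ^ t → ∃ T : Finset X, T.card ≤ t ∧ ∀ S ∈ F, ∃ x ∈ T, x ∈ S := by
  induction t with
  | zero =>
    intro F _ h
    rw [pow_zero, pow_zero, mul_one, Nat.lt_one_iff, Finset.card_eq_zero] at h
    subst h
    exact ⟨∅, by simp, fun S hS => absurd hS (Finset.notMem_empty S)⟩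
  | succ t ih =>
    intro F hF h
    obtain ⟨x, hx⟩ := Cover_point K F hF
    have hcard := Finset.card_filter_add_card_filter_not (s := F) (fun S => x ∈ S)
    have hK : 0 < K := by
      rcases Nat.eq_zero_or_pos K with rfl | hK
      · simp at h
      · exact hK
    obtain ⟨T, hT, hT2⟩ := ih (F.filter fun S => x ∉ S)
      (fun S hS => hF S (Finset.mem_filter.1 hS).1) (by
        have h1 : K * (F.filter fun S => x ∉ S).card ≤ (K - 1) * F.card := by
          obtain ⟨K', rfl⟩ : ∃ K', K = K' + 1 := ⟨K - 1, by omega⟩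
          rw [Nat.add_sub_cancel]
          generalize (F.filter fun S => x ∈ S).card = p at hx hcard
          generalize (F.filter fun S => x ∉ S).card = q at hcard ⊢
          rw [← hcard] at hx ⊢
          nlinarith
        have h2 : K * ((F.filter fun S => x ∉ S).card * (K - 1) ^ t) < K * K ^ t := by
          calc K * ((F.filter fun S => x ∉ S).card * (K - 1) ^ t)
              = (K * (F.filter fun S => x ∉ S).card) * (K - 1) ^ t := by ring
            _ ≤ ((K - 1) * F.card) * (K - 1) ^ t := Nat.mul_le_mul_right _ h1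
            _ = F.card * (K - 1) ^ (t + 1) := by ring
            _ < K ^ (t + 1) := h
            _ = K * K ^ t := by ring
        exact lt_of_mul_lt_mul_left h2 (Nat.zero_le K))
    refine ⟨insert x T, (Finset.card_insert_le _ _).trans (by omega), fun S hS => ?_⟩
    by_cases hxS : x ∈ S
    · exact ⟨x, Finset.mem_insert_self _ _, hxS⟩
    · obtain ⟨y, hy, hyS⟩ := hT2 S (Finset.mem_filter.2 ⟨hS, hxS⟩)
      exact ⟨y, Finset.mem_insert_of_mem hy, hyS⟩

/-- the number of rounds -/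
theorem Cover_rounds (K : ℕ) (hK : 0 < K) : ∃ D : ℕ, 0 < D ∧ 8 * (K - 1) ^ D < K ^ D := by
  have h1 : ((K : ℝ) - 1) / K < 1 := by
    have : (0 : ℝ) < K := by exact_mod_cast hK
    rw [div_lt_one this]
    linarith
  have h0 : 0 ≤ ((K : ℝ) - 1) / K := by
    have : (1 : ℝ) ≤ K := by exact_mod_cast hK
    apply div_nonneg <;> linarith
  obtain ⟨D, hD⟩ := exists_pow_lt_of_lt_one (show (0 : ℝ) < 1 / 8 by norm_num) h1
  refine ⟨D + 1, Nat.succ_pos D, ?_⟩
  have hKr : (0 : ℝ) < (K : ℝ) ^ (D + 1) := by positivity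
  have h2 : (((K : ℝ) - 1) / K) ^ (D + 1) < 1 / 8 := by
    refine lt_of_le_of_lt ?_ hD
    rw [pow_succ]
    exact mul_le_of_le_one_right (pow_nonneg h0 _) h1.le
  rw [div_pow, div_lt_iff₀ hKr] at h2
  have h3 : ((8 * (K - 1) ^ (D + 1) : ℕ) : ℝ) < ((K ^ (D + 1) : ℕ) : ℝ) := by
    push_cast [Nat.cast_sub (Nat.succ_le_of_lt hK)]
    linarith
  exact_mod_cast h3

/-- a set of `D b` points of the cube `b × b × b` hitting all boxes with large sides -/
theorem cover_boxes (K : ℕ) (hK : 0 < K) : ∃ D : ℕ, 0 < D ∧ ∀ b : ℕ, 0 < b →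
    ∃ T : Finset (Fin b × Fin b × Fin b), T.card ≤ D * b ∧
      ∀ A B C : Finset (Fin b), b ≤ K * A.card → b ≤ K * B.card → b ≤ K * C.card →
        ∃ t ∈ T, t.1 ∈ A ∧ t.2.1 ∈ B ∧ t.2.2 ∈ C := by
  classical
  obtain ⟨D, hD0, hD⟩ := Cover_rounds (K ^ 3) (by positivity)
  refine ⟨D, hD0, fun b hb => ?_⟩
  have : Nonempty (Fin b × Fin b × Fin b) := ⟨(⟨0, hb⟩, ⟨0, hb⟩, ⟨0, hb⟩)⟩
  obtain ⟨T, hT, hT2⟩ := cover (X := Fin b × Fin b × Fin b) (K ^ 3) (D * b)
    (((Finset.univ : Finset (Finset (Fin b) × Finset (Fin b) × Finset (Fin b))).filter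
      fun p => b ≤ K * p.1.card ∧ b ≤ K * p.2.1.card ∧ b ≤ K * p.2.2.card).image
        fun p => p.1 ×ˢ p.2.1 ×ˢ p.2.2) (by
      intro S hS
      obtain ⟨p, hp, rfl⟩ := Finset.mem_image.1 hS
      obtain ⟨-, h1, h2, h3⟩ := Finset.mem_filter.1 hp
      rw [Finset.card_product, Finset.card_product, Fintype.card_prod, Fintype.card_prod,
        Fintype.card_fin]
      calc b * (b * b) ≤ (K * p.1.card) * ((K * p.2.1.card) * (K * p.2.2.card)) :=
            Nat.mul_le_mul h1 (Nat.mul_le_mul h2 h3)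
        _ = K ^ 3 * (p.1.card * (p.2.1.card * p.2.2.card)) := by ring) (by
      have h1 : (((Finset.univ : Finset (Finset (Fin b) × Finset (Fin b) ×
          Finset (Fin b))).filter
        fun p => b ≤ K * p.1.card ∧ b ≤ K * p.2.1.card ∧ b ≤ K * p.2.2.card).image
          fun p => p.1 ×ˢ p.2.1 ×ˢ p.2.2).card ≤ 8 ^ b := by
        refine Finset.card_image_le.trans ((Finset.card_filter_le _ _).trans ?_)
        rw [Finset.card_univ, Fintype.card_prod, Fintype.card_prod, Fintype.card_finset,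
          Fintype.card_fin, ← mul_pow, ← mul_pow]
        norm_num
      calc _ ≤ 8 ^ b * (K ^ 3 - 1) ^ (D * b) := Nat.mul_le_mul_right _ h1
        _ = (8 * (K ^ 3 - 1) ^ D) ^ b := by rw [mul_pow, pow_mul]
        _ < ((K ^ 3) ^ D) ^ b := Nat.pow_lt_pow_left hD hb.ne'
        _ = (K ^ 3) ^ (D * b) := by rw [← pow_mul])
  refine ⟨T, hT, fun A B C hA hB hC => ?_⟩
  obtain ⟨t, ht, ht2⟩ := hT2 (A ×ˢ B ×ˢ C) (Finset.mem_image.2 ⟨(A, B, C),
    Finset.mem_filter.2 ⟨Finset.mem_univ _, hA, hB, hC⟩, rfl⟩)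
  rw [Finset.mem_product, Finset.mem_product] at ht2
  exact ⟨t, ht, ht2⟩

end Pool.MP7783b9
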