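import Mathlib

/-!
# Triangle-free graphs with small independence ratio
-/

set_option autoImplicit false

open Finset

namespace Pool.MP7783b9

/-- the Hamming distance -/
def Cube_d {d : ℕ} (x y : Fin d → Bool) : ℕ := ∑ i, if x i = y i then 0 else 1

theorem Cube_cons {d : ℕ} (a b : Bool) (x y : Fin d → Bool) :
    Cube_d (Fin.cons a x : Fin (d + 1) → Bool) (Fin.cons b y) =
      (if a = b then 0 else 1) + Cube_d x y := by
  unfold Cube_d
  rw [Fin.sum_univ_succ]
  simp only [Fin.cons_zero, Fin.cons_succ]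

theorem Cube_card {d : ℕ} (A : Finset (Fin (d + 1) → Bool)) :
    A.card = (Finset.univ.filter fun x : Fin d → Bool =>
        (Fin.cons false x : Fin (d + 1) → Bool) ∈ A).card +
      (Finset.univ.filter fun x : Fin d → Bool =>
        (Fin.cons true x : Fin (d + 1) → Bool) ∈ A).card := by
  classical
  have h1 : ∀ b : Bool, (A.filter fun x => x 0 = b).card = (Finset.univ.filter
      fun x : Fin d → Bool => (Fin.cons b x : Fin (d + 1) → Bool) ∈ A).card := by
    intro b
    symm
    refine Finset.card_bij (fun x _ => (Fin.cons b x : Fin (d + 1) → Bool)) ?_ ?_ ?_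
    · intro x hx
      rw [Finset.mem_filter] at hx ⊢
      exact ⟨hx.2, Fin.cons_zero _ _⟩
    · intro x _ y _ h
      exact Fin.cons_right_injective (α := fun _ => Bool) b h
    · intro y hy
      rw [Finset.mem_filter] at hy
      have h2 : (Fin.cons b (Fin.tail y) : Fin (d + 1) → Bool) = y := by
        rw [← hy.2]
        exact Fin.cons_self_tail y
      exact ⟨Fin.tail y, Finset.mem_filter.2 ⟨Finset.mem_univ _, by rw [h2]; exact hy.1⟩, h2⟩
  rw [← h1, ← h1, ← Finset.card_filter_add_card_filter_not (s := A) (fun x => x 0 = false)]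
  congr 2
  ext x
  simp

theorem Cube_real (X x y u v : ℝ) (hX : 0 < X) (hx : x ≤ X) (hy : y ≤ X) (hu : 2 * u ≤ X)
    (hv : 2 * v ≤ X) (hv0 : 0 ≤ v) (h : x * y = u * v) :
    4 * (x + y + u + v) ≤ 9 * X := by
  have h1 : 0 ≤ (X - x) * (X - y) := mul_nonneg (by linarith) (by linarith)
  have h2 : 0 ≤ (X - 2 * u) * (X - 2 * v) := mul_nonneg (by linarith) (by linarith)
  have h3 : (2 * u) * (2 * v) ≤ X * X := mul_le_mul hu hv (by linarith) hX.le
  have h4 : X * (4 * (x + y + u + v)) ≤ X * (9 * X) := by nlinarith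
  exact le_of_mul_le_mul_left h4 hX

/-- two sets of words with small distances -/
theorem cube_cross (d : ℕ) : ∀ (M : ℕ) (A B : Finset (Fin d → Bool)),
    (∀ x ∈ A, ∀ y ∈ B, Cube_d x y ≤ M) → A.card * B.card * 4 ^ d ≤ 9 ^ d * 2 ^ M := by
  induction d with
  | zero =>
    intro M A B _
    have h1 : ∀ S : Finset (Fin 0 → Bool), S.card ≤ 1 := by
      intro S
      have := Finset.card_le_univ S
      simpa using this
    have h2 : A.card * B.card ≤ 1 * 1 := Nat.mul_le_mul (h1 A) (h1 B)
    rw [pow_zero, pow_zero, mul_one, one_mul]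
    exact h2.trans Nat.one_le_two_pow
  | succ d ih =>
    intro M A B hAB
    rw [Cube_card A, Cube_card B]
    have same : ∀ b : Bool, (Finset.univ.filter fun x : Fin d → Bool =>
          (Fin.cons b x : Fin (d + 1) → Bool) ∈ A).card *
        (Finset.univ.filter fun x : Fin d → Bool =>
          (Fin.cons b x : Fin (d + 1) → Bool) ∈ B).card * 4 ^ d ≤ 9 ^ d * 2 ^ M := by
      intro b
      apply ih
      intro x hx y hy
      have h1 := hAB _ (Finset.mem_filter.1 hx).2 _ (Finset.mem_filter.1 hy).2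
      rw [Cube_cons, if_pos rfl, Nat.zero_add] at h1
      exact h1
    have diff : ∀ b c : Bool, b ≠ c → 2 * ((Finset.univ.filter fun x : Fin d → Bool =>
          (Fin.cons b x : Fin (d + 1) → Bool) ∈ A).card *
        (Finset.univ.filter fun x : Fin d → Bool =>
          (Fin.cons c x : Fin (d + 1) → Bool) ∈ B).card * 4 ^ d) ≤ 9 ^ d * 2 ^ M := by
      intro b c hbc
      rcases Nat.eq_zero_or_pos M with rfl | hM
      · have h0 : (Finset.univ.filter fun x : Fin d → Bool =>
            (Fin.cons b x : Fin (d + 1) → Bool) ∈ A).card *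
          (Finset.univ.filter fun x : Fin d → Bool =>
            (Fin.cons c x : Fin (d + 1) → Bool) ∈ B).card = 0 := by
          by_contra hcon
          rw [mul_eq_zero, not_or, Finset.card_eq_zero, Finset.card_eq_zero] at hcon
          obtain ⟨x, hx⟩ := Finset.nonempty_iff_ne_empty.2 hcon.1
          obtain ⟨y, hy⟩ := Finset.nonempty_iff_ne_empty.2 hcon.2
          have h1 := hAB _ (Finset.mem_filter.1 hx).2 _ (Finset.mem_filter.1 hy).2
          rw [Cube_cons, if_neg hbc] at h1
          omega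
        rw [h0]
        simp
      · obtain ⟨M, rfl⟩ : ∃ M', M = M' + 1 := ⟨M - 1, by omega⟩
        have h1 := ih M (Finset.univ.filter fun x : Fin d → Bool =>
            (Fin.cons b x : Fin (d + 1) → Bool) ∈ A)
          (Finset.univ.filter fun x : Fin d → Bool =>
            (Fin.cons c x : Fin (d + 1) → Bool) ∈ B) (by
          intro x hx y hy
          have h1 := hAB _ (Finset.mem_filter.1 hx).2 _ (Finset.mem_filter.1 hy).2
          rw [Cube_cons, if_neg hbc] at h1
          omega)
        calc _ ≤ 2 * (9 ^ d * 2 ^ M) := Nat.mul_le_mul_left 2 h1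
          _ = 9 ^ d * 2 ^ (M + 1) := by ring
    have s0 := same false
    have s1 := same true
    have d0 := diff false true (by decide)
    have d1 := diff true false (by decide)
    generalize (Finset.univ.filter fun x : Fin d → Bool =>
          (Fin.cons false x : Fin (d + 1) → Bool) ∈ A).card = a0 at *
    generalize (Finset.univ.filter fun x : Fin d → Bool =>
          (Fin.cons true x : Fin (d + 1) → Bool) ∈ A).card = a1 at *
    generalize (Finset.univ.filter fun x : Fin d → Bool =>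
          (Fin.cons false x : Fin (d + 1) → Bool) ∈ B).card = b0 at *
    generalize (Finset.univ.filter fun x : Fin d → Bool =>
          (Fin.cons true x : Fin (d + 1) → Bool) ∈ B).card = b1 at *
    have hX : 0 < 9 ^ d * 2 ^ M := by positivity
    have key := Cube_real ((9 ^ d * 2 ^ M : ℕ) : ℝ) ((a0 * b0 * 4 ^ d : ℕ) : ℝ)
      ((a1 * b1 * 4 ^ d : ℕ) : ℝ) ((a0 * b1 * 4 ^ d : ℕ) : ℝ) ((a1 * b0 * 4 ^ d : ℕ) : ℝ)
      (by exact_mod_cast hX) (by exact_mod_cast s0) (by exact_mod_cast s1)
      (by exact_mod_cast d0) (by exact_mod_cast d1) (Nat.cast_nonneg _)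
      (by push_cast; ring)
    have key2 : 4 * (a0 * b0 * 4 ^ d + a1 * b1 * 4 ^ d + a0 * b1 * 4 ^ d + a1 * b0 * 4 ^ d) ≤
        9 * (9 ^ d * 2 ^ M) := by exact_mod_cast key
    calc (a0 + a1) * (b0 + b1) * 4 ^ (d + 1) =
        4 * (a0 * b0 * 4 ^ d + a1 * b1 * 4 ^ d + a0 * b1 * 4 ^ d + a1 * b0 * 4 ^ d) := by ring
      _ ≤ 9 * (9 ^ d * 2 ^ M) := key2
      _ = 9 ^ (d + 1) * 2 ^ M := by ring

theorem Cube_tri {d : ℕ} (x y z : Fin d → Bool) : Cube_d x y + Cube_d x z + Cube_d y z ≤ 2 * d := by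
  unfold Cube_d
  rw [← Finset.sum_add_distrib, ← Finset.sum_add_distrib]
  have h1 : ∀ a b c : Bool, (if a = b then 0 else 1) + (if a = c then 0 else 1) +
      (if b = c then 0 else 1) ≤ 2 := by decide
  refine (Finset.sum_le_card_nsmul _ _ 2 fun i _ => h1 (x i) (y i) (z i)).trans ?_
  rw [Finset.card_univ, Fintype.card_fin, smul_eq_mul, mul_comm]

theorem Cube_self {d : ℕ} (x : Fin d → Bool) : Cube_d x x = 0 := by
  unfold Cube_d
  simp

theorem Cube_comm {d : ℕ} (x y : Fin d → Bool) : Cube_d x y = Cube_d y x := by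
  unfold Cube_d
  refine Finset.sum_congr rfl fun i _ => ?_
  simp only [eq_comm]

/-- triangle-free graphs in which every independent set has at most a `1 / Q` fraction of the
vertices -/
theorem small_independent (Q : ℕ) : ∃ (m : ℕ) (R : Fin m → Fin m → Prop), 0 < m ∧
    (∀ a, ¬ R a a) ∧ (∀ a b, R a b → R b a) ∧ (∀ a b c, R a b → R a c → ¬ R b c) ∧
    ∀ I : Finset (Fin m), (∀ x ∈ I, ∀ y ∈ I, ¬ R x y) → Q * I.card ≤ m := by
  classical
  obtain ⟨k, hk⟩ : ∃ k : ℕ, Q * 54 ^ k ≤ 64 ^ k := by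
    obtain ⟨k, hk⟩ := pow_unbounded_of_one_lt (Q : ℝ) (show (1 : ℝ) < 64 / 54 by norm_num)
    refine ⟨k, ?_⟩
    rw [div_pow, lt_div_iff₀ (by positivity)] at hk
    exact_mod_cast hk.le
  obtain ⟨e⟩ : Nonempty (Fin (8 ^ k) ≃ (Fin (3 * k) → Bool)) := by
    rw [← Fintype.card_eq, Fintype.card_fin, Fintype.card_fun, Fintype.card_bool,
      Fintype.card_fin, pow_mul]
    norm_num
  refine ⟨8 ^ k, fun a b => 2 * k < Cube_d (e a) (e b), by positivity, ?_, ?_, ?_, ?_⟩
  · intro a h
    rw [Cube_self] at h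
    omega
  · intro a b h
    rw [Cube_comm]
    exact h
  · intro a b c h1 h2 h3
    have := Cube_tri (e a) (e b) (e c)
    omega
  · intro I hI
    have h1 := cube_cross (3 * k) (2 * k) (I.map e.toEmbedding) (I.map e.toEmbedding) (by
      intro x hx y hy
      obtain ⟨a, ha, rfl⟩ := Finset.mem_map.1 hx
      obtain ⟨b, hb, rfl⟩ := Finset.mem_map.1 hy
      exact not_lt.1 (hI a ha b hb))
    rw [Finset.card_map] at h1
    have h2 : (I.card * 8 ^ k) ^ 2 ≤ (54 ^ k) ^ 2 := by
      calc (I.card * 8 ^ k) ^ 2 = I.card * I.card * 4 ^ (3 * k) := by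
            rw [mul_pow, ← pow_mul, mul_comm k 2, pow_mul 8 2 k, pow_mul 4 3 k]
            norm_num
            ring
        _ ≤ 9 ^ (3 * k) * 2 ^ (2 * k) := h1
        _ = (54 ^ k) ^ 2 := by
            rw [pow_mul 9 3 k, pow_mul 2 2 k, ← mul_pow, ← pow_mul, mul_comm k 2, pow_mul 54 2 k]
            norm_num
    have h3 : I.card * 8 ^ k ≤ 54 ^ k := le_of_pow_le_pow_left₀ (by norm_num) (by positivity) h2
    have h4 : Q * I.card * 8 ^ k ≤ 8 ^ k * 8 ^ k := by
      calc Q * I.card * 8 ^ k = Q * (I.card * 8 ^ k) := by ring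
        _ ≤ Q * 54 ^ k := Nat.mul_le_mul_left Q h3
        _ ≤ 64 ^ k := hk
        _ = 8 ^ k * 8 ^ k := by rw [← mul_pow]; norm_num
    exact Nat.le_of_mul_le_mul_right h4 (by positivity)

end Pool.MP7783b9
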