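import Pool.Agent.H.MP_7783b9_co.T.Build

/-!
# Degrees and connectivity of the construction
-/

set_option autoImplicit false

open Finset

namespace Pool.MP7783b9

theorem Deg_image {ι β : Type*} [DecidableEq ι] [DecidableEq β] (s : Finset ι)
    (g : ι → Finset β) (x : β) :
    ((s.image g).filter fun e => x ∈ e).card ≤ (s.filter fun i => x ∈ g i).card := by
  rw [Finset.filter_image]
  exact Finset.card_image_le

theorem Build_deg {n b : ℕ} (h : b ≤ n) (hn : 0 < n) (q : ℕ) (hq : 0 < q)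
    (X : Finset (Finset (Fin b))) (hqb : ∀ v : ℕ, v < n → (v - b) / q + 1 < b) (L : ℕ)
    (hX : ∀ x, (X.filter fun e => x ∈ e).card ≤ L) (x : Fin n) :
    ((Build_E h hn q X).filter fun e => x ∈ e).card ≤ L + 2 * q + 4 := by
  classical
  unfold Build_E
  rw [Finset.filter_union, Finset.filter_union]
  have h1 : (((Finset.range (b - 2)).image fun i => ({⟨i % n, Nat.mod_lt _ hn⟩, ⟨(i + 1) % n,
    Nat.mod_lt _ hn⟩, ⟨(i + 2) % n, Nat.mod_lt _ hn⟩} : Finset (Fin n))).filter
      fun e => x ∈ e).card ≤ 3 := by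
    refine (Deg_image _ _ _).trans ?_
    refine (Finset.card_le_card (t := {(x : ℕ), (x : ℕ) - 1, (x : ℕ) - 2}) ?_).trans
      Finset.card_le_three
    intro i hi
    rw [Finset.mem_filter, Finset.mem_range] at hi
    obtain ⟨hi1, hi2⟩ := hi
    simp only [Finset.mem_insert, Finset.mem_singleton] at hi2 ⊢
    rw [Fin.ext_iff, Fin.ext_iff, Fin.ext_iff] at hi2
    have e1 : i % n = i := Nat.mod_eq_of_lt (by omega)
    have e2 : (i + 1) % n = i + 1 := Nat.mod_eq_of_lt (by omega)
    have e3 : (i + 2) % n = i + 2 := Nat.mod_eq_of_lt (by omega)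
    simp only [e1, e2, e3] at hi2
    omega
  have h2 : ((X.image fun e => e.map (Fin.castLEEmb h)).filter fun e => x ∈ e).card ≤ L := by
    refine (Deg_image _ _ _).trans ?_
    by_cases hx : (x : ℕ) < b
    · refine le_trans (Finset.card_le_card ?_) (hX ⟨x, hx⟩)
      intro e he
      rw [Finset.mem_filter] at he ⊢
      refine ⟨he.1, ?_⟩
      obtain ⟨w, hw, hw2⟩ := Finset.mem_map.1 he.2
      have h5 : (w : ℕ) = x := congrArg (fun u : Fin n => (u : ℕ)) hw2
      have h6 : w = ⟨x, hx⟩ := Fin.ext h5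
      rw [← h6]
      exact hw
    · refine le_of_eq_of_le ?_ (Nat.zero_le _)
      rw [Finset.card_eq_zero, Finset.filter_eq_empty_iff]
      intro e _ hxe
      obtain ⟨w, -, hw2⟩ := Finset.mem_map.1 hxe
      have h3 : (w : ℕ) = x := congrArg Fin.val hw2
      have := w.2
      omega
  have h3 : (((Finset.univ.filter fun v : Fin n => b ≤ (v : ℕ)).image fun v => ({v,
    ⟨((v - b) / q) % n, Nat.mod_lt _ hn⟩, ⟨((v - b) / q + 1) % n, Nat.mod_lt _ hn⟩} :
      Finset (Fin n))).filter fun e => x ∈ e).card ≤ 2 * q + 1 := by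
    refine (Deg_image _ _ _).trans ?_
    have key : ∀ j : ℕ, (Finset.univ.filter fun v : Fin n => b ≤ (v : ℕ) ∧
        ((v : ℕ) - b) / q = j).card ≤ q := by
      intro j
      have h4 : (Finset.univ.filter fun v : Fin n => b ≤ (v : ℕ) ∧
        ((v : ℕ) - b) / q = j).card ≤ (Finset.Ico (q * j) (q * j + q)).card := by
        refine Finset.card_le_card_of_injOn (fun v => (v : ℕ) - b) ?_ ?_
        · intro v hv
          rw [Finset.mem_coe, Finset.mem_filter] at hv
          rw [Finset.mem_coe, Finset.mem_Ico]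
          have h5 := Nat.div_add_mod ((v : ℕ) - b) q
          have h6 := Nat.mod_lt ((v : ℕ) - b) hq
          rw [hv.2.2] at h5
          show q * j ≤ (v : ℕ) - b ∧ (v : ℕ) - b < q * j + q
          omega
        · intro v hv w hw hvw
          rw [Finset.mem_coe, Finset.mem_filter] at hv hw
          have h5 : (v : ℕ) - b = (w : ℕ) - b := hvw
          exact Fin.ext (by omega)
      rw [Nat.card_Ico, Nat.add_sub_cancel_left] at h4
      exact h4
    have hsub : ((Finset.univ.filter fun v : Fin n => b ≤ (v : ℕ)).filter fun v => x ∈ ({v,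
        ⟨((v - b) / q) % n, Nat.mod_lt _ hn⟩, ⟨((v - b) / q + 1) % n, Nat.mod_lt _ hn⟩} :
        Finset (Fin n))) ⊆ {x} ∪ ((Finset.univ.filter fun v : Fin n => b ≤ (v : ℕ) ∧
        ((v : ℕ) - b) / q = x) ∪ (Finset.univ.filter fun v : Fin n => b ≤ (v : ℕ) ∧
        ((v : ℕ) - b) / q = x - 1)) := by
      intro v hv
      rw [Finset.mem_filter, Finset.mem_filter] at hv
      obtain ⟨⟨-, hv1⟩, hv2⟩ := hv
      simp only [Finset.mem_insert, Finset.mem_singleton] at hv2
      have h4 := hqb v v.2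
      have e1 : (((v : ℕ) - b) / q) % n = ((v : ℕ) - b) / q := Nat.mod_eq_of_lt (by omega)
      have e2 : (((v : ℕ) - b) / q + 1) % n = ((v : ℕ) - b) / q + 1 :=
        Nat.mod_eq_of_lt (by omega)
      rw [Fin.ext_iff (b := ⟨(((v : ℕ) - b) / q) % n, Nat.mod_lt _ hn⟩),
        Fin.ext_iff (b := ⟨(((v : ℕ) - b) / q + 1) % n, Nat.mod_lt _ hn⟩)] at hv2
      simp only [e1, e2] at hv2
      rw [Finset.mem_union, Finset.mem_union, Finset.mem_singleton, Finset.mem_filter,
        Finset.mem_filter]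
      rcases hv2 with h5 | h5 | h5
      · exact Or.inl h5.symm
      · exact Or.inr (Or.inl ⟨Finset.mem_univ _, hv1, h5.symm⟩)
      · exact Or.inr (Or.inr ⟨Finset.mem_univ _, hv1, by omega⟩)
    refine (Finset.card_le_card hsub).trans ((Finset.card_union_le _ _).trans ?_)
    have h5 := Finset.card_union_le (Finset.univ.filter fun v : Fin n => b ≤ (v : ℕ) ∧
        ((v : ℕ) - b) / q = x) (Finset.univ.filter fun v : Fin n => b ≤ (v : ℕ) ∧
        ((v : ℕ) - b) / q = x - 1)
    have h6 := key x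
    have h7 := key (x - 1)
    rw [Finset.card_singleton]
    omega
  refine (Finset.card_union_le _ _).trans ?_
  refine (Nat.add_le_add ((Finset.card_union_le _ _).trans (Nat.add_le_add h1 h2)) h3).trans ?_
  omega

theorem Deg_step {V : Type*} (E : Finset (Finset V)) (e : Finset V) (he : e ∈ E) (v w : V)
    (hv : v ∈ e) (hw : w ∈ e) : (incidence E).Reachable (Sum.inl v) (Sum.inl w) := by
  have h1 : (incidence E).Adj (Sum.inl v) (Sum.inr ⟨e, he⟩) := hv
  have h2 : (incidence E).Adj (Sum.inr ⟨e, he⟩) (Sum.inl w) := hw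
  exact h1.reachable.trans h2.reachable

theorem Build_conn {n b : ℕ} (h : b ≤ n) (hn : 0 < n) (hb : 3 ≤ b) (q : ℕ)
    (X : Finset (Finset (Fin b))) (hX : ∀ e ∈ X, e.card = 3)
    (hqb : ∀ v : ℕ, v < n → (v - b) / q + 1 < b) :
    (incidence (Build_E h hn q X)).Connected := by
  have hbase : ∀ i : ℕ, ∀ hi : i < b, (incidence (Build_E h hn q X)).Reachable
      (Sum.inl ⟨0, hn⟩) (Sum.inl ⟨i, hi.trans_le h⟩) := by
    intro i
    induction i with
    | zero => exact fun _ => SimpleGraph.Reachable.refl _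
    | succ i ih =>
      intro hi
      refine (ih (by omega)).trans ?_
      by_cases h2 : i + 2 < b
      · refine Deg_step _ {⟨i, by omega⟩, ⟨i + 1, by omega⟩, ⟨i + 2, by omega⟩}
          ((Build_mem h hn q X hqb _).2 (Or.inl ⟨_, _, _, h2, rfl, rfl, rfl⟩)) _ _ ?_ ?_
        · simp
        · simp
      · refine Deg_step _ {⟨i - 1, by omega⟩, ⟨i, by omega⟩, ⟨i + 1, by omega⟩}
          ((Build_mem h hn q X hqb _).2 (Or.inl ⟨_, _, _, ?_, ?_, ?_, rfl⟩)) _ _ ?_ ?_
        · show i - 1 + 2 < b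
          omega
        · show i = i - 1 + 1
          omega
        · show i + 1 = i - 1 + 2
          omega
        · simp
        · simp
  have hvert : ∀ v : Fin n, (incidence (Build_E h hn q X)).Reachable
      (Sum.inl ⟨0, hn⟩) (Sum.inl v) := by
    intro v
    by_cases hv : (v : ℕ) < b
    · exact hbase v hv
    · have h1 := hqb v v.2
      refine (hbase (((v : ℕ) - b) / q) (by omega)).trans ?_
      refine Deg_step _ {v, ⟨((v : ℕ) - b) / q, by omega⟩, ⟨((v : ℕ) - b) / q + 1, by omega⟩}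
        ((Build_mem h hn q X hqb _).2 (Or.inr (Or.inr ⟨_, _, _, not_lt.1 hv, rfl, rfl, h1, rfl⟩)))
        _ _ ?_ ?_
      · simp
      · simp
  have hall : ∀ a, (incidence (Build_E h hn q X)).Reachable (Sum.inl ⟨0, hn⟩) a := by
    rintro (v | ⟨e, he⟩)
    · exact hvert v
    · have hne : e.Nonempty := by
        rw [← Finset.card_pos, Build_card h hn q X hqb hX e he]
        omega
      obtain ⟨w, hw⟩ := hne
      have h2 : (incidence (Build_E h hn q X)).Adj (Sum.inl w) (Sum.inr ⟨e, he⟩) := hw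
      exact (hvert w).trans h2.reachable
  have : Nonempty (Fin n ⊕ {f // f ∈ Build_E h hn q X}) := ⟨Sum.inl ⟨0, hn⟩⟩
  exact ⟨fun a c => (hall a).symm.trans (hall c)⟩

end Pool.MP7783b9
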