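import Pool.Agent.H.MP_7783b9_co.T.Pat

/-!
# Fano-good hypergraphs do not expand
-/

set_option autoImplicit false

open Finset

namespace Pool.MP7783b9

/-- three disjoint sets of size `k` without an edge meeting all three -/
def HasHole {V : Type*} [DecidableEq V] (E : Finset (Finset V)) (k : ℕ) : Prop :=
  ∃ A B C : Finset V, A.card = k ∧ B.card = k ∧ C.card = k ∧ Disjoint A B ∧ Disjoint A C ∧
    Disjoint B C ∧ ∀ e ∈ E, Disjoint e A ∨ Disjoint e B ∨ Disjoint e C

theorem Hole_fin : ∀ i j : Fin 3, (i = j ∨ i = j + 2) → (i + 1 = j ∨ i + 1 = j + 2) →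
    i ≠ j := by decide

theorem Hole_fin3 : ∀ j : Fin 3, (0 = j ∨ 0 = j + 2) → (1 = j ∨ 1 = j + 2) →
    ¬ (2 = j ∨ 2 = j + 2) := by decide

theorem hole_of_two {V : Type*} [Fintype V] [DecidableEq V] (E : Finset (Finset V))
    (f : V → Fin 3) (hf : ∀ e ∈ E, EdgeOk f e) (k : ℕ) (i : Fin 3)
    (h1 : 2 * k ≤ (Finset.univ.filter fun v => f v = i).card)
    (h2 : k ≤ (Finset.univ.filter fun v => f v = i + 1).card) : HasHole E k := by
  obtain ⟨X, hX, hXc⟩ := Finset.exists_subset_card_eq h1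
  obtain ⟨A, hA, hAc⟩ := Finset.exists_subset_card_eq (show k ≤ X.card by omega)
  obtain ⟨C, hC, hCc⟩ := Finset.exists_subset_card_eq h2
  have hXi : ∀ v ∈ X, f v = i := fun v hv => (Finset.mem_filter.1 (hX hv)).2
  have hCi : ∀ v ∈ C, f v = i + 1 := fun v hv => (Finset.mem_filter.1 (hC hv)).2
  have hii : ∀ i : Fin 3, i ≠ i + 1 := by decide
  have hXC : Disjoint X C := by
    rw [Finset.disjoint_left]
    intro v hv hv2
    exact hii i ((hXi v hv).symm.trans (hCi v hv2))
  refine ⟨A, X \ A, C, hAc, ?_, hCc, Finset.disjoint_sdiff, hXC.mono_left hA,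
    hXC.mono_left Finset.sdiff_subset, ?_⟩
  · rw [Finset.card_sdiff_of_subset hA, hXc, hAc]
    omega
  · intro e he
    by_contra hcon
    rw [not_or, not_or, Finset.not_disjoint_iff, Finset.not_disjoint_iff,
      Finset.not_disjoint_iff] at hcon
    obtain ⟨⟨a, ha, haA⟩, ⟨b, hb, hbB⟩, ⟨c, hc, hcC⟩⟩ := hcon
    obtain ⟨j, hj1, hj2⟩ := hf e he
    have fa := hXi a (hA haA)
    have fb := hXi b (Finset.sdiff_subset hbB)
    have fc := hCi c hcC
    have hab : a ≠ b := fun h => (Finset.mem_sdiff.1 hbB).2 (h ▸ haA)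
    have hij : i ≠ j := Hole_fin i j (fa ▸ hj1 a ha) (fc ▸ hj1 c hc)
    exact hab (Finset.card_le_one.1 hj2 a (Finset.mem_filter.2 ⟨ha, fa ▸ hij⟩) b
      (Finset.mem_filter.2 ⟨hb, fb ▸ hij⟩))

theorem hole_of_three {V : Type*} [Fintype V] [DecidableEq V] (E : Finset (Finset V))
    (f : V → Fin 3) (hf : ∀ e ∈ E, EdgeOk f e) (k : ℕ)
    (h0 : k ≤ (Finset.univ.filter fun v => f v = 0).card)
    (h1 : k ≤ (Finset.univ.filter fun v => f v = 1).card)
    (h2 : k ≤ (Finset.univ.filter fun v => f v = 2).card) : HasHole E k := by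
  obtain ⟨A, hA, hAc⟩ := Finset.exists_subset_card_eq h0
  obtain ⟨B, hB, hBc⟩ := Finset.exists_subset_card_eq h1
  obtain ⟨C, hC, hCc⟩ := Finset.exists_subset_card_eq h2
  have hAi : ∀ v ∈ A, f v = 0 := fun v hv => (Finset.mem_filter.1 (hA hv)).2
  have hBi : ∀ v ∈ B, f v = 1 := fun v hv => (Finset.mem_filter.1 (hB hv)).2
  have hCi : ∀ v ∈ C, f v = 2 := fun v hv => (Finset.mem_filter.1 (hC hv)).2
  refine ⟨A, B, C, hAc, hBc, hCc, ?_, ?_, ?_, ?_⟩
  · rw [Finset.disjoint_left]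
    intro v hv hv2
    exact absurd ((hAi v hv).symm.trans (hBi v hv2)) (by decide)
  · rw [Finset.disjoint_left]
    intro v hv hv2
    exact absurd ((hAi v hv).symm.trans (hCi v hv2)) (by decide)
  · rw [Finset.disjoint_left]
    intro v hv hv2
    exact absurd ((hBi v hv).symm.trans (hCi v hv2)) (by decide)
  · intro e he
    by_contra hcon
    rw [not_or, not_or, Finset.not_disjoint_iff, Finset.not_disjoint_iff,
      Finset.not_disjoint_iff] at hcon
    obtain ⟨⟨a, ha, haA⟩, ⟨b, hb, hbB⟩, ⟨c, hc, hcC⟩⟩ := hcon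
    obtain ⟨j, hj1, -⟩ := hf e he
    have fa := hAi a haA
    have fb := hBi b hbB
    have fc := hCi c hcC
    exact Hole_fin3 j (fa ▸ hj1 a ha) (fb ▸ hj1 b hb) (fc ▸ hj1 c hc)

/-- a Fano-good hypergraph has three disjoint sets of size `n / 9` without an edge meeting all
three -/
theorem hole_of_good {V : Type*} [Fintype V] [DecidableEq V] (E : Finset (Finset V))
    (h3 : ∀ f ∈ E, f.card = 3) (hg : FanoGood E) (k : ℕ) (hk : 9 * k ≤ Fintype.card V) :
    HasHole E k := by
  obtain ⟨N, hN0, hN1, hN2⟩ : ∃ N : Fin 3 → ℕ, N 0 = (2 * (Fintype.card V - 1) + 1) / 3 ∧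
      N 1 = (2 * (Fintype.card V - 1) + 2) / 3 ∧ N 2 = (2 * (Fintype.card V - 1) + 3) / 3 :=
    ⟨![_, _, _], rfl, rfl, rfl⟩
  have hN : N 0 + N 1 + N 2 = 2 * (Fintype.card V - 1) + 1 := by
    rw [hN0, hN1, hN2]
    generalize Fintype.card V - 1 = c
    have h1 : c % 3 = 0 ∨ c % 3 = 1 ∨ c % 3 = 2 := by omega
    rcases h1 with h1 | h1 | h1 <;> omega
  obtain ⟨f, hf1, hf2⟩ := (necessary_gen E h3 hg).1 N hN
  have hs : (Finset.univ.filter fun v => f v = 0).card +
      (Finset.univ.filter fun v => f v = 1).card + (Finset.univ.filter fun v => f v = 2).card =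
        Fintype.card V := by
    have h1 := Finset.card_eq_sum_card_fiberwise (f := f) (s := (Finset.univ : Finset V))
      (t := (Finset.univ : Finset (Fin 3))) (fun _ _ => Finset.mem_coe.2 (Finset.mem_univ _))
    rw [Fin.sum_univ_three, Finset.card_univ] at h1
    exact h1.symm
  have b0 := hf1 0
  have b1 := hf1 1
  have b2 := hf1 2
  rw [hN0] at b0
  rw [hN1] at b1
  rw [hN2] at b2
  have key : (k ≤ (Finset.univ.filter fun v => f v = 0).card ∧
      k ≤ (Finset.univ.filter fun v => f v = 1).card ∧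
      k ≤ (Finset.univ.filter fun v => f v = 2).card) ∨
      (2 * k ≤ (Finset.univ.filter fun v => f v = 0).card ∧
        k ≤ (Finset.univ.filter fun v => f v = 1).card) ∨
      (2 * k ≤ (Finset.univ.filter fun v => f v = 1).card ∧
        k ≤ (Finset.univ.filter fun v => f v = 2).card) ∨
      (2 * k ≤ (Finset.univ.filter fun v => f v = 2).card ∧
        k ≤ (Finset.univ.filter fun v => f v = 0).card) := by
    omega
  rcases key with h | h | h | h
  · exact hole_of_three E f hf2 k h.1 h.2.1 h.2.2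
  · exact hole_of_two E f hf2 k 0 h.1 h.2
  · exact hole_of_two E f hf2 k 1 h.1 h.2
  · exact hole_of_two E f hf2 k 2 h.1 h.2

end Pool.MP7783b9
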