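import Pool.Agent.H.MP_7783b9_co.T.Deg
import Pool.Agent.H.MP_7783b9_co.T.Hole

/-!
# Necessary conditions for Fano-goodness, and expanders
-/

set_option autoImplicit false

open Finset

namespace Pool.MP7783b9

theorem expanders (C : ℕ) (ε : ℝ) (hε : 0 < ε) :
    ∃ Δ n₀ : ℕ, ∀ n : ℕ, n₀ ≤ n → ∃ E : Finset (Finset (Fin n)), (∀ e ∈ E, e.card = 3) ∧
      (∀ x, (E.filter fun e => x ∈ e).card ≤ Δ) ∧ (incidence E).Connected ∧
      (∃ I : Finset (Fin n), (∀ e ∈ E, (e ∩ I).card ≤ 1) ∧ (1 - ε) * (n : ℝ) ≤ (I.card : ℝ)) ∧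
      C * n < ramsey E := by
  classical
  obtain ⟨q, hq2, hqε⟩ : ∃ q : ℕ, 2 ≤ q ∧ 2 / ε ≤ (q : ℝ) :=
    ⟨⌈2 / ε⌉₊ + 2, by omega, (Nat.le_ceil _).trans (by push_cast; linarith)⟩
  obtain ⟨K, u₀, hK, hexp⟩ := not_arrows_exp C q
  obtain ⟨L, hL⟩ := expander K hK
  refine ⟨L + 2 * q + 4, q * (u₀ + 2), fun n hn => ?_⟩
  have hnq : u₀ + 2 ≤ n / q := by
    rw [Nat.le_div_iff_mul_le (by omega), mul_comm]
    exact hn
  obtain ⟨b, hb⟩ : ∃ b, b = n / q + 2 := ⟨_, rfl⟩
  have hdm := Nat.div_add_mod n q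
  have hml := Nat.mod_lt n (show q > 0 by omega)
  have h2q : 2 * (n / q) ≤ q * (n / q) := Nat.mul_le_mul_right _ hq2
  have hbn : b ≤ n := by omega
  have hn0 : 0 < n := by omega
  have hqb : ∀ v : ℕ, v < n → (v - b) / q + 1 < b := by
    intro v hv
    have h1 : (v - b) / q ≤ n / q := Nat.div_le_div_right (by omega)
    omega
  have hnb : n ≤ q * b := by
    rw [hb, mul_add]
    omega
  obtain ⟨X, hX3, hXd, hXe⟩ := hL b (by omega)
  have hcard := Build_card hbn hn0 q X hqb hX3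
  refine ⟨Build_E hbn hn0 q X, hcard, fun x =>
    Build_deg hbn hn0 q (by omega) X hqb L hXd x, Build_conn hbn hn0 (by omega) q X hX3 hqb,
    ⟨_, Build_indep hbn hn0 q X hqb, ?_⟩, ?_⟩
  · have h1 := Finset.card_filter_add_card_filter_not (s := (Finset.univ : Finset (Fin n)))
      (fun v : Fin n => b ≤ (v : ℕ))
    rw [Finset.card_univ, Fintype.card_fin] at h1
    have h2 : (Finset.univ.filter fun v : Fin n => ¬ b ≤ (v : ℕ)).card ≤
        (Finset.range b).card := by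
      refine Finset.card_le_card_of_injOn (fun v => (v : ℕ)) ?_ ?_
      · intro v hv
        rw [Finset.mem_coe, Finset.mem_filter] at hv
        rw [Finset.mem_coe, Finset.mem_range]
        exact not_le.1 hv.2
      · intro v _ w _ hvw
        exact Fin.ext hvw
    rw [Finset.card_range] at h2
    have h3 : n ≤ (Finset.univ.filter fun v : Fin n => b ≤ (v : ℕ)).card + b := by omega
    have h4 : (n : ℝ) ≤ ((Finset.univ.filter fun v : Fin n => b ≤ (v : ℕ)).card : ℝ) + b := by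
      exact_mod_cast h3
    have h5 : b ≤ 2 * (n / q) := by omega
    have h6 : (b : ℝ) ≤ 2 * ((n / q : ℕ) : ℝ) := by exact_mod_cast h5
    have h7 : (q : ℝ) * ((n / q : ℕ) : ℝ) ≤ n := by exact_mod_cast (show q * (n / q) ≤ n by omega)
    rw [div_le_iff₀ hε] at hqε
    have h8 : 2 * ((n / q : ℕ) : ℝ) ≤ (q * ε) * ((n / q : ℕ) : ℝ) :=
      mul_le_mul_of_nonneg_right hqε (Nat.cast_nonneg _)
    have h9 : ε * ((q : ℝ) * ((n / q : ℕ) : ℝ)) ≤ ε * n := mul_le_mul_of_nonneg_left h7 hε.le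
    have h10 : (q * ε) * ((n / q : ℕ) : ℝ) = ε * ((q : ℝ) * ((n / q : ℕ) : ℝ)) := by ring
    linarith
  · by_contra hcon
    rw [not_lt] at hcon
    have hne : {N | Arrows (Build_E hbn hn0 q X) N}.Nonempty := arr_exists _ hcard
    have h1 : Arrows (Build_E hbn hn0 q X) (ramsey (Build_E hbn hn0 q X)) := Nat.sInf_mem hne
    have h2 := arr_mono _ _ _ hcon h1
    have h3 : (Finset.univ.map (Fin.castLEEmb hbn)).card = b := by
      rw [Finset.card_map, Finset.card_univ, Fintype.card_fin]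
    refine hexp (Build_E hbn hn0 q X) (Finset.univ.map (Fin.castLEEmb hbn))
      (Build_exp hbn hn0 q X K hXe) ?_ ?_ ?_
    · rw [h3, Fintype.card_fin]
      exact hnb
    · rw [h3]
      omega
    · rw [Fintype.card_fin]
      exact h2

end Pool.MP7783b9
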