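import Pool.Agent.H.MP_7783b9_co.T.Trans
import Pool.Agent.H.MP_7783b9_co.T.Cube
import Pool.Agent.H.MP_7783b9_co.B.Ram

/-!
# Expanding hypergraphs have large Ramsey numbers
-/

set_option autoImplicit false

open Finset

namespace Pool.MP7783b9

theorem arr_mono {V : Type*} (E : Finset (Finset V)) (M N : ℕ) (h : M ≤ N)
    (hA : Arrows E M) : Arrows E N := by
  intro c
  rcases hA (fun f => c (f.map (Fin.castLEEmb h))) with ⟨φ, hφ⟩ | ⟨φ, hφ⟩
  · left
    refine ⟨φ.trans (Fin.castLEEmb h), fun f hf => ?_⟩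
    have := hφ f hf
    rw [← Finset.map_map]
    exact this
  · right
    refine ⟨φ.trans (Fin.castLEEmb h), fun f hf => ?_⟩
    have := hφ f hf
    rw [← Finset.map_map]
    exact this

theorem arr_exists {V : Type*} [Fintype V] [DecidableEq V] (E : Finset (Finset V))
    (h3 : ∀ e ∈ E, e.card = 3) : ∃ N, Arrows E N := by
  classical
  obtain ⟨s, hs⟩ := ram3 (Fintype.card V)
  refine ⟨s, fun c => ?_⟩
  rcases hs (fun f => c f = true) (Finset.univ : Finset (Fin s)) (by simp) with h | h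
  · right
    obtain ⟨ψ, h1, -, h2⟩ := h
    refine ⟨⟨ψ, h1⟩, fun f hf => ?_⟩
    have h3 := h2 f hf
    rw [Bool.not_eq_true] at h3
    rw [Finset.map_eq_image]
    exact h3
  · left
    obtain ⟨K, -, hKc, hK⟩ := h
    have e : V ≃ K := Fintype.equivOfCardEq (by rw [Fintype.card_coe, hKc])
    refine ⟨e.toEmbedding.trans (Function.Embedding.subtype _), fun f hf => ?_⟩
    refine hK _ ?_ (by rw [Finset.card_map]; exact h3 f hf)
    intro x hx
    obtain ⟨v, -, rfl⟩ := Finset.mem_map.1 hx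
    exact (e v).2

/-- `E` expands inside `U` -/
def Exp {V : Type*} [DecidableEq V] (E : Finset (Finset V)) (U : Finset V) (K : ℕ) : Prop :=
  ∀ A B C : Finset V, A ⊆ U → B ⊆ U → C ⊆ U → Disjoint A B → Disjoint A C → Disjoint B C →
    U.card ≤ K * A.card → U.card ≤ K * B.card → U.card ≤ K * C.card →
    ∃ x ∈ A, ∃ y ∈ B, ∃ z ∈ C, ({x, y, z} : Finset V) ∈ E

theorem exp_core {V : Type*} [Fintype V] [DecidableEq V] (E : Finset (Finset V)) (U : Finset V)
    (K : ℕ) (hE : Exp E U K) (m : ℕ) (R : Fin m → Fin m → Prop) (hirr : ∀ a, ¬ R a a) (Q : ℕ)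
    (hI : ∀ I : Finset (Fin m), (∀ x ∈ I, ∀ y ∈ I, ¬ R x y) → Q * I.card ≤ m)
    (f : V → Fin m) (c : ℕ) (hf1 : ∀ i, (Finset.univ.filter fun v => f v = i).card ≤ c)
    (hf2 : ∀ e ∈ E, e.val.map f ∉ arcTypes R) (t : ℕ) (ht : U.card ≤ K * t) :
    ∃ b, Q * b ≤ m ∧ U.card ≤ b * c + m * (2 * t) := by
  classical
  obtain ⟨big, hbig⟩ : ∃ big : Finset (Fin m), ∀ i, i ∈ big ↔
      2 * t ≤ (U.filter fun v => f v = i).card :=
    ⟨Finset.univ.filter fun i => 2 * t ≤ (U.filter fun v => f v = i).card, fun i => by simp⟩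
  refine ⟨big.card, hI big ?_, ?_⟩
  · intro i hi j hj hR
    have hij : i ≠ j := fun h => hirr i (by rw [← h] at hR; exact hR)
    obtain ⟨X, hX, hXc⟩ := Finset.exists_subset_card_eq ((hbig i).1 hi)
    obtain ⟨A, hA, hAc⟩ := Finset.exists_subset_card_eq (show t ≤ X.card by omega)
    obtain ⟨C, hC, hCc⟩ := Finset.exists_subset_card_eq
      ((show t ≤ 2 * t by omega).trans ((hbig j).1 hj))
    have hXi : ∀ v ∈ X, v ∈ U ∧ f v = i := fun v hv => Finset.mem_filter.1 (hX hv)
    have hCi : ∀ v ∈ C, v ∈ U ∧ f v = j := fun v hv => Finset.mem_filter.1 (hC hv)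
    have hXC : Disjoint X C := by
      rw [Finset.disjoint_left]
      intro v hv hv2
      exact hij ((hXi v hv).2.symm.trans (hCi v hv2).2)
    have hBc : (X \ A).card = t := by
      rw [Finset.card_sdiff_of_subset hA, hXc, hAc]
      omega
    obtain ⟨x, hx, y, hy, z, hz, he⟩ := hE A (X \ A) C (fun v hv => (hXi v (hA hv)).1)
      (fun v hv => (hXi v (Finset.sdiff_subset hv)).1) (fun v hv => (hCi v hv).1)
      Finset.disjoint_sdiff (hXC.mono_left hA) (hXC.mono_left Finset.sdiff_subset)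
      (by rw [hAc]; exact ht) (by rw [hBc]; exact ht) (by rw [hCc]; exact ht)
    apply hf2 _ he
    have hxy : x ≠ y := fun h => (Finset.mem_sdiff.1 hy).2 (h ▸ hx)
    have hxz : x ≠ z := fun h => Finset.disjoint_left.1 hXC (hA hx) (h ▸ hz)
    have hyz : y ≠ z := fun h => Finset.disjoint_left.1 hXC (Finset.sdiff_subset hy) (h ▸ hz)
    have hval : ({x, y, z} : Finset V).val = {x, y, z} := by
      rw [Finset.insert_val_of_notMem (by simp [hxy, hxz]),
        Finset.insert_val_of_notMem (by simp [hyz])]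
      rfl
    rw [hval]
    refine ⟨i, j, hR, ?_⟩
    simp only [Multiset.insert_eq_cons, Multiset.map_cons, Multiset.map_singleton]
    rw [(hXi x (hA hx)).2, (hXi y (Finset.sdiff_subset hy)).2, (hCi z hz).2]
  · have h1 : U.card = ∑ i, (U.filter fun v => f v = i).card :=
      Finset.card_eq_sum_card_fiberwise (fun _ _ => Finset.mem_coe.2 (Finset.mem_univ _))
    rw [h1, ← Finset.sum_filter_add_sum_filter_not Finset.univ (fun i => i ∈ big)]
    refine Nat.add_le_add ?_ ?_
    · refine (Finset.sum_le_card_nsmul _ _ c fun i _ => ?_).trans ?_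
      · exact (Finset.card_le_card (Finset.filter_subset_filter _ (Finset.subset_univ _))).trans
          (hf1 i)
      · rw [smul_eq_mul]
        refine Nat.mul_le_mul_right _ (Finset.card_le_card ?_)
        intro i hi
        exact (Finset.mem_filter.1 hi).2
    · refine (Finset.sum_le_card_nsmul _ _ (2 * t) fun i hi => ?_).trans ?_
      · have h2 := (Finset.mem_filter.1 hi).2
        rw [hbig, not_le] at h2
        exact h2.le
      · rw [smul_eq_mul]
        refine Nat.mul_le_mul_right _ ((Finset.card_filter_le _ _).trans ?_)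
        rw [Finset.card_univ, Fintype.card_fin]

/-- hypergraphs expanding on a positive fraction of their vertices have large Ramsey numbers -/
theorem not_arrows_exp (C q : ℕ) : ∃ K u₀ : ℕ, 0 < K ∧ ∀ {V : Type} [Fintype V] [DecidableEq V]
    (E : Finset (Finset V)) (U : Finset V), Exp E U K → Fintype.card V ≤ q * U.card →
    u₀ ≤ U.card → ¬ Arrows E (C * Fintype.card V) := by
  obtain ⟨m, R, hm, hirr, -, htt, hI⟩ := small_independent (4 * (C * q + 1))
  refine ⟨8 * m, 5 * m, by omega, ?_⟩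
  intro V _ _ E U hE hVU hu hA
  obtain ⟨c, hc⟩ : ∃ c, c = C * Fintype.card V / m + 1 := ⟨_, rfl⟩
  have hmc : C * Fintype.card V ≤ m * c ∧ m * c ≤ C * Fintype.card V + m := by
    have h1 := Nat.div_add_mod (C * Fintype.card V) m
    have h2 := Nat.mod_lt (C * Fintype.card V) hm
    rw [hc, mul_add, mul_one]
    omega
  obtain ⟨f, hf1, hf2⟩ := templ_necessary E (m * c) (arr_mono E _ _ hmc.1 hA) m (arcTypes R)
    (fanoFree_arc R hirr htt) (fun _ => c) (by
      rw [Finset.sum_const, Finset.card_univ, Fintype.card_fin, smul_eq_mul])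
  obtain ⟨t, ht⟩ : ∃ t, t = U.card / (8 * m) + 1 := ⟨_, rfl⟩
  have hmt : U.card ≤ 8 * m * t ∧ 8 * m * t ≤ U.card + 8 * m := by
    have h1 := Nat.div_add_mod U.card (8 * m)
    have h2 := Nat.mod_lt U.card (show 8 * m > 0 by omega)
    rw [ht, mul_add, mul_one]
    omega
  obtain ⟨b, hb1, hb2⟩ := exp_core E U (8 * m) hE m R hirr _ hI f c hf1 hf2 t hmt.1
  have h1 : 4 * (C * q + 1) * b * c ≤ m * c := Nat.mul_le_mul_right c hb1
  have h2 : C * Fintype.card V ≤ C * q * U.card := by
    rw [mul_assoc]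
    exact Nat.mul_le_mul_left C hVU
  have h3 : (C * q + 1) * (4 * (b * c)) ≤ (C * q + 1) * (U.card + m) := by
    calc (C * q + 1) * (4 * (b * c)) = 4 * (C * q + 1) * b * c := by ring
      _ ≤ C * q * U.card + m := by omega
      _ ≤ (C * q + 1) * (U.card + m) := by
        have : (C * q + 1) * (U.card + m) = C * q * U.card + m + (U.card + C * q * m) := by ring
        omega
  have h4 : 4 * (b * c) ≤ U.card + m := Nat.le_of_mul_le_mul_left h3 (by omega)
  have h5 : 8 * m * t = 4 * (m * (2 * t)) := by ring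
  omega

end Pool.MP7783b9
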