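import Pool.Agent.H.MP_7783b9_co.N.Gen

/-!
# Blow-up templates
-/

set_option autoImplicit false

open Finset

namespace Pool.MP7783b9

/-- no labelling of the points of the Fano plane gives every line a type in `B` -/
def FanoFree {L : Type*} (B : Set (Multiset L)) : Prop :=
  ¬ ∃ χ : Fin 7 → L, ∀ l ∈ fano, l.val.map χ ∈ B

theorem templ_copy {V L : Type*} (E : Finset (Finset V)) (B : Set (Multiset L))
    (hB : FanoFree B) (M : ℕ) (g : Fin M → L) (hA : Arrows E M) :
    ∃ φ : V ↪ Fin M, ∀ e ∈ E, e.val.map (fun v => g (φ v)) ∉ B := by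
  classical
  rcases hA (fun f => decide (f.val.map g ∉ B)) with ⟨φ, hφ⟩ | ⟨φ, hφ⟩
  · refine ⟨φ, fun e he => ?_⟩
    have h1 : (e.map φ).val.map g ∉ B := of_decide_eq_true (hφ e he)
    rw [Finset.map_val, Multiset.map_map] at h1
    exact h1
  · exfalso
    refine hB ⟨fun x => g (φ x), fun l hl => ?_⟩
    have h1 : ¬ (l.map φ).val.map g ∉ B := of_decide_eq_false (hφ l hl)
    rw [not_not, Finset.map_val, Multiset.map_map] at h1
    exact h1

/-- a label function with prescribed fibre sizes -/
theorem templ_fibres {V : Type*} [Fintype V] [DecidableEq V] (m M : ℕ) (N : Fin m → ℕ)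
    (hM : ∑ i, N i = M) :
    ∃ g : Fin M → Fin m, ∀ φ : V ↪ Fin M, ∀ i,
      (Finset.univ.filter fun v => g (φ v) = i).card ≤ N i := by
  classical
  subst hM
  refine ⟨fun x => (finSigmaFinEquiv.symm x).1, fun φ i => ?_⟩
  have h1 : (Finset.univ.filter fun v => (finSigmaFinEquiv.symm (φ v)).1 = i).card ≤
      (Finset.univ.filter fun x : (j : Fin m) × Fin (N j) => x.1 = i).card := by
    refine Finset.card_le_card_of_injOn (fun v => finSigmaFinEquiv.symm (φ v)) ?_ ?_
    · intro v hv
      rw [Finset.mem_coe, Finset.mem_filter] at hv ⊢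
      exact ⟨Finset.mem_univ _, hv.2⟩
    · intro v _ w _ hvw
      exact φ.injective (finSigmaFinEquiv.symm.injective hvw)
  refine h1.trans (le_of_eq ?_)
  rw [← Fintype.card_subtype, Fintype.card_congr (Equiv.sigmaSubtype i), Fintype.card_fin]

/-- the template condition -/
theorem templ_necessary {V : Type*} [Fintype V] [DecidableEq V] (E : Finset (Finset V))
    (M : ℕ) (hA : Arrows E M) (m : ℕ) (B : Set (Multiset (Fin m))) (hB : FanoFree B)
    (N : Fin m → ℕ) (hM : ∑ i, N i = M) :
    ∃ f : V → Fin m, (∀ i, (Finset.univ.filter fun v => f v = i).card ≤ N i) ∧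
      ∀ e ∈ E, e.val.map f ∉ B := by
  obtain ⟨g, hg⟩ := templ_fibres (V := V) m M N hM
  obtain ⟨φ, hφ⟩ := templ_copy E B hB M g hA
  exact ⟨fun v => g (φ v), hg φ, hφ⟩

theorem arrows_of_good {V : Type*} [Fintype V] (E : Finset (Finset V)) (hg : FanoGood E) :
    Arrows E (2 * (Fintype.card V - 1) + 1) := by
  have hr : sInf {N | Arrows E N} = 2 * (Fintype.card V - 1) + 1 := hg
  have hne : {N | Arrows E N}.Nonempty := by
    by_contra hcon
    rw [Set.not_nonempty_iff_eq_empty] at hcon
    rw [hcon, Nat.sInf_empty] at hr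
    omega
  have := Nat.sInf_mem hne
  rw [hr] at this
  exact this

end Pool.MP7783b9
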