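import Pool.Agent.H.MP_7783b9_co.T.Pat

/-!
# Templates from digraphs without transitive triangles
-/

set_option autoImplicit false

open Finset

namespace Pool.MP7783b9

/-- the blue types `i i j` with an arc from `i` to `j` -/
def arcTypes {L : Type*} (R : L → L → Prop) : Set (Multiset L) :=
  {s | ∃ i j, R i j ∧ s = {i, i, j}}

/-- the labels of a line with an arc type -/
def Trans_P {L : Type*} (R : L → L → Prop) (x y z : L) : Prop :=
  (x = y ∧ R x z) ∨ (x = z ∧ R x y) ∨ (y = z ∧ R y x)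

theorem Trans_type {L : Type*} (R : L → L → Prop) (x y z : L)
    (h : ({x, y, z} : Multiset L) ∈ arcTypes R) : Trans_P R x y z := by
  classical
  obtain ⟨i, j, hR, hs⟩ := h
  have hj : j ∈ ({x, y, z} : Multiset L) := by
    rw [hs]
    simp
  have two : ∀ p q : L, ({p, q} : Multiset L) = {i, i} → p = i ∧ q = i := by
    intro p q hpq
    have hp : p ∈ ({i, i} : Multiset L) := by
      rw [← hpq]
      simp
    have hq : q ∈ ({i, i} : Multiset L) := by
      rw [← hpq]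
      simp
    simp at hp hq
    exact ⟨hp, hq⟩
  have rot : ∀ p q r : L, ({p, q, r} : Multiset L) = r ::ₘ {p, q} := by
    intro p q r
    show p ::ₘ q ::ₘ r ::ₘ (0 : Multiset L) = r ::ₘ p ::ₘ q ::ₘ (0 : Multiset L)
    rw [Multiset.cons_swap q r, Multiset.cons_swap p r]
  simp only [Multiset.insert_eq_cons, Multiset.mem_cons, Multiset.mem_singleton] at hj
  rw [rot i i j] at hs
  rcases hj with rfl | rfl | rfl
  · have h1 := (Multiset.cons_inj_right j).1 hs
    obtain ⟨h2, h3⟩ := two y z h1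
    subst h2
    exact Or.inr (Or.inr ⟨h3.symm, hR⟩)
  · have h0 : ({x, j, z} : Multiset L) = j ::ₘ {x, z} := Multiset.cons_swap _ _ _
    rw [h0] at hs
    have h1 := (Multiset.cons_inj_right j).1 hs
    obtain ⟨h2, h3⟩ := two x z h1
    subst h2
    exact Or.inr (Or.inl ⟨h3.symm, hR⟩)
  · rw [rot x y j] at hs
    have h1 := (Multiset.cons_inj_right j).1 hs
    obtain ⟨h2, h3⟩ := two x y h1
    subst h2
    exact Or.inl ⟨h3.symm, hR⟩

/-- exactly two of three numbers agree -/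
def Trans_two (a b c : ℕ) : Bool :=
  (a == b && !(a == c)) || (a == c && !(a == b)) || (b == c && !(a == b))

/-- four numbers agree -/
def Trans_four (a b c d : ℕ) : Bool := a == b && b == c && c == d

theorem Trans_all : ∀ (r1 : Fin 2) (r2 : Fin 3) (r3 : Fin 4) (r4 : Fin 5) (r5 : Fin 6)
    (r6 : Fin 7),
    (!(Trans_two 0 r1 r3 && Trans_two r1 r2 r4 && Trans_two r2 r3 r5 && Trans_two r3 r4 r6 &&
      Trans_two r4 r5 0 && Trans_two r5 r6 r1 && Trans_two r6 0 r2) ||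
      (Trans_four r2 r4 r5 r6 || Trans_four 0 r3 r5 r6 || Trans_four 0 r1 r4 r6 ||
        Trans_four 0 r1 r2 r5 || Trans_four r1 r2 r3 r6 || Trans_four 0 r2 r3 r4 ||
        Trans_four r1 r3 r4 r5)) = true := by
  decide +kernel

theorem Trans_core {L : Type*} (R : L → L → Prop) (hirr : ∀ a, ¬ R a a) (χ : Fin 7 → L)
    (hP : ∀ i : Fin 7, Trans_P R (χ i) (χ (i + 1)) (χ (i + 3))) (i : Fin 7)
    (h1 : χ (i + 2) = χ (i + 4)) (h2 : χ (i + 4) = χ (i + 5)) (h3 : χ (i + 4) = χ (i + 6)) :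
    ∃ a b c, R a b ∧ R a c ∧ R b c := by
  have e : ∀ i : Fin 7, i + 4 + 1 = i + 5 ∧ i + 4 + 3 = i ∧ i + 1 + 1 = i + 2 ∧
      i + 1 + 3 = i + 4 ∧ i + 3 + 1 = i + 4 ∧ i + 3 + 3 = i + 6 := by decide
  obtain ⟨e1, e2, e3, e4, e5, e6⟩ := e i
  have p1 := hP (i + 4)
  have p2 := hP (i + 1)
  have p3 := hP (i + 3)
  have p0 := hP i
  rw [e1, e2] at p1
  rw [e3, e4] at p2
  rw [e5, e6] at p3
  rw [← h2] at p1
  rw [h1] at p2
  rw [← h3] at p3
  generalize χ (i + 4) = a at p1 p2 p3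
  generalize χ i = x at p0 p1
  generalize χ (i + 1) = y at p0 p2
  generalize χ (i + 3) = z at p0 p3
  have q1 : R a x := by
    rcases p1 with h | h | h
    · exact h.2
    · exact absurd h.2 (hirr a)
    · exact absurd h.2 (hirr a)
  have q2 : R a y := by
    rcases p2 with h | h | h
    · exact absurd (h.1 ▸ h.2) (hirr y)
    · exact absurd (h.1 ▸ h.2) (hirr y)
    · exact h.2
  have q3 : R a z := by
    rcases p3 with h | h | h
    · exact absurd (h.1 ▸ h.2) (hirr z)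
    · exact absurd (h.1 ▸ h.2) (hirr z)
    · exact h.2
  rcases p0 with h | h | h
  · exact ⟨a, x, z, q1, q3, h.2⟩
  · exact ⟨a, x, y, q1, q2, h.2⟩
  · exact ⟨a, y, x, q2, q1, h.2⟩

/-- a digraph without loops and transitive triangles gives a template without Fano plane -/
theorem fanoFree_arc {L : Type*} (R : L → L → Prop) (hirr : ∀ a, ¬ R a a)
    (htt : ∀ a b c, R a b → R a c → ¬ R b c) : FanoFree (arcTypes R) := by
  classical
  rintro ⟨χ, hχ⟩
  have hP : ∀ i : Fin 7, Trans_P R (χ i) (χ (i + 1)) (χ (i + 3)) := by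
    intro i
    apply Trans_type
    have key : ∀ i : Fin 7, ∃ l ∈ fano, l.val = ({i, i + 1, i + 3} : Multiset (Fin 7)) := by
      decide
    obtain ⟨l, hl, hl2⟩ := key i
    have h1 := hχ l hl
    rw [hl2] at h1
    simpa using h1
  -- the least point with the same label
  have hne : ∀ p : Fin 7, (Finset.univ.filter fun q => χ q = χ p).Nonempty :=
    fun p => ⟨p, by simp⟩
  obtain ⟨r, hr1, hr2⟩ : ∃ r : Fin 7 → Fin 7, (∀ p, r p ≤ p) ∧ ∀ p q, χ p = χ q ↔ r p = r q := by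
    refine ⟨fun p => (Finset.univ.filter fun q => χ q = χ p).min' (hne p), ?_, ?_⟩
    · intro p
      exact Finset.min'_le _ _ (by simp)
    · intro p q
      constructor
      · intro h
        simp only [h]
      · intro h
        have h1 := (Finset.mem_filter.1 ((Finset.univ.filter fun q => χ q = χ p).min'_mem
          (hne p))).2
        have h2 := (Finset.mem_filter.1 ((Finset.univ.filter fun r => χ r = χ q).min'_mem
          (hne q))).2
        have h3 : (Finset.univ.filter fun q => χ q = χ p).min' (hne p) =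
          (Finset.univ.filter fun r => χ r = χ q).min' (hne q) := h
        rw [← h1, h3, h2]
  have htwo : ∀ x y z : Fin 7, Trans_P R (χ x) (χ y) (χ z) → Trans_two (r x) (r y) (r z) = true := by
    intro x y z h
    have e1 := hr2 x y
    have e2 := hr2 x z
    have e3 := hr2 y z
    have f : ∀ p q : Fin 7, ((r p : ℕ) == (r q : ℕ)) = decide (χ p = χ q) := by
      intro p q
      rw [Bool.eq_iff_iff, beq_iff_eq, decide_eq_true_iff, hr2, Fin.ext_iff]
    unfold Trans_two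
    rw [f, f, f]
    rcases h with h | h | h
    · have h2 : χ x ≠ χ z := fun h3 => hirr _ (by have := h.2; rwa [← h3] at this)
      have h3 : χ y ≠ χ z := h.1 ▸ h2
      simp [h.1, h3]
    · have h2 : χ x ≠ χ y := fun h3 => hirr _ (by have := h.2; rwa [← h3] at this)
      have h3 : χ z ≠ χ y := h.1 ▸ h2
      simp [h.1, h3]
    · have h2 : χ x ≠ χ y := fun h3 => hirr _ (by have := h.2; rwa [← h3] at this)
      have h3 : χ x ≠ χ z := h.1 ▸ h2
      simp [h.1, h3]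
  have hv : ∀ p : Fin 7, (r p : ℕ) ≤ p := fun p => Fin.le_def.1 (hr1 p)
  have hr0 : (r 0 : ℕ) = 0 := Nat.le_zero.1 (hv 0)
  have hall := Trans_all ⟨(r 1 : ℕ), Nat.lt_succ_of_le (hv 1)⟩ ⟨(r 2 : ℕ), Nat.lt_succ_of_le (hv 2)⟩
    ⟨(r 3 : ℕ), Nat.lt_succ_of_le (hv 3)⟩ ⟨(r 4 : ℕ), Nat.lt_succ_of_le (hv 4)⟩
    ⟨(r 5 : ℕ), Nat.lt_succ_of_le (hv 5)⟩ ⟨(r 6 : ℕ), Nat.lt_succ_of_le (hv 6)⟩
  have t0 := htwo 0 1 3 (hP 0)
  have t1 := htwo 1 2 4 (hP 1)
  have t2 := htwo 2 3 5 (hP 2)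
  have t3 := htwo 3 4 6 (hP 3)
  have t4 := htwo 4 5 0 (hP 4)
  have t5 := htwo 5 6 1 (hP 5)
  have t6 := htwo 6 0 2 (hP 6)
  rw [hr0] at t0 t4 t6
  have hc : ∃ i : Fin 7, χ (i + 2) = χ (i + 4) ∧ χ (i + 4) = χ (i + 5) ∧
      χ (i + 4) = χ (i + 6) := by
    simp only [t0, t1, t2, t3, t4, t5, t6, Bool.and_self, Bool.not_true, Bool.false_or,
      Bool.or_eq_true, Trans_four, Bool.and_eq_true, beq_iff_eq] at hall
    rw [← hr0] at hall
    simp only [← Fin.ext_iff, ← hr2] at hall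
    rcases hall with (((((h | h) | h) | h) | h) | h) | h
    · obtain ⟨⟨h1, h2⟩, h3⟩ := h
      exact ⟨0, h1, h2, h2.trans h3⟩
    · obtain ⟨⟨h1, h2⟩, h3⟩ := h
      exact ⟨1, h2, h3, (h1.trans h2).symm⟩
    · obtain ⟨⟨h1, h2⟩, h3⟩ := h
      exact ⟨2, h3, (h1.trans (h2.trans h3)).symm, (h2.trans h3).symm⟩
    · obtain ⟨⟨h1, h2⟩, h3⟩ := h
      exact ⟨3, (h1.trans (h2.trans h3)).symm, h1, h1.trans h2⟩
    · obtain ⟨⟨h1, h2⟩, h3⟩ := h
      exact ⟨4, (h1.trans (h2.trans h3)).symm, h1, h1.trans h2⟩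
    · obtain ⟨⟨h1, h2⟩, h3⟩ := h
      exact ⟨5, h1, h2, h2.trans h3⟩
    · obtain ⟨⟨h1, h2⟩, h3⟩ := h
      exact ⟨6, h1, h2, h2.trans h3⟩
  obtain ⟨i, h1, h2, h3⟩ := hc
  obtain ⟨a, b, c, hab, hac, hbc⟩ := Trans_core R hirr χ hP i h1 h2 h3
  exact htt a b c hab hac hbc

end Pool.MP7783b9
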